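import Pool.Agent.Lib.MP_ad4d1c_co_h48.ExDefs
import Pool.Agent.Lib.MP_ad4d1c_co_h51.Final

set_option autoImplicit false

/-!
# Module J2: congruence of `VV` and from a V-family to a good sequence
-/

namespace Pool.Agent.Lib.MP_ad4d1c_co_h48.Ex

open Finset Pool.Agent.Lib.MP_ad4d1c_co_h51

theorem VV.congr {i : ℕ} {s e s' e' : ℕ → Finset ℕ} {V : Fam} (h : VV i s e V)
    (hs : ∀ k, k ≤ i → V k ≠ [] → s k = s' k) (he : ∀ k, k ≤ i → V k ≠ [] → e k = e' k) :
    VV i s' e' V where
  mem := h.mem
  pw := h.pw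
  chain := h.chain
  cross := h.cross
  len := h.len
  none := h.none
  head := by
    intro k p hp
    have hne : V k ≠ [] := by
      rintro h0
      simp [h0] at hp
    have hk : k ≤ i := by
      by_contra hk
      exact hne (h.none k (by omega))
    rw [h.head k p hp, hs k hk hne]
  last := by
    intro k p hp
    have hne : V k ≠ [] := by
      rintro h0
      simp [h0] at hp
    have hk : k ≤ i := by
      by_contra hk
      exact hne (h.none k (by omega))
    rw [h.last k p hp, he k hk hne]

/-- levels `0, …, k` -/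
def cat (V : Fam) : ℕ → List Pr
  | 0 => V 0
  | k + 1 => cat V k ++ V (k + 1)

theorem cat_mem {V : Fam} {k : ℕ} {p : Pr} (h : p ∈ cat V k) : ∃ l ≤ k, p ∈ V l := by
  induction k with
  | zero => exact ⟨0, le_rfl, h⟩
  | succ k ih =>
    rcases List.mem_append.1 h with h | h
    · obtain ⟨l, hl, hp⟩ := ih h
      exact ⟨l, by omega, hp⟩
    · exact ⟨k + 1, le_rfl, h⟩

theorem cat_getLast {V : Fam} {k : ℕ} (h : V k ≠ []) : (cat V k).getLast? = (V k).getLast? := by
  cases k with
  | zero => rfl
  | succ k =>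
    simp only [cat]
    rw [List.getLast?_append]
    obtain ⟨x, hx⟩ : ∃ x, (V (k + 1)).getLast? = some x := by
      rw [← Option.isSome_iff_exists, List.getLast?_isSome]
      exact h
    simp [hx]

theorem cat_head {V : Fam} {k : ℕ} {p : Pr} (h : (V 0).head? = some p) :
    (cat V k).head? = some p := by
  induction k with
  | zero => exact h
  | succ k ih =>
    simp only [cat]
    rw [List.head?_append, ih]
    rfl

theorem cat_length {V : Fam} {n : ℕ}
    (h : ∀ k, k ≤ n → (V k).length = (n - 1).choose k + k % 2) (k : ℕ) (hk : k ≤ n) :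
    (cat V k).length = (∑ j ∈ range (k + 1), (n - 1).choose j) + (k + 1) / 2 := by
  induction k with
  | zero => simp [cat, h 0 hk]
  | succ k ih =>
    simp only [cat]
    rw [List.length_append, ih (by omega), h (k + 1) hk, Finset.sum_range_succ _ (k + 1)]
    omega

/-- shift of the labels by 1 and concatenation of the levels -/
theorem VV.good {n : ℕ} {s e : ℕ → Finset ℕ} {V : Fam} (hn : 1 ≤ n) (hV : VV n s e V)
    (hl : ∀ k, k < n → V (k + 1) ≠ [] → e k ⊆ s (k + 1)) : Good n := by
  have hne : ∀ k, k < n → V k ≠ [] := by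
    intro k hk h0
    have h1 := hV.len k (by omega)
    rw [h0] at h1
    have h2 : 0 < (n - 1).choose k := Nat.choose_pos (by omega)
    simp at h1
    omega
  -- admissibility
  have hno : ∀ k l, ∀ p ∈ V l, ∀ q ∈ V k, l < k → ¬ q.2 ⊆ p.1 := by
    intro k l p hp q hq hlk hsub
    obtain ⟨-, -, hpc, -⟩ := hV.mem l p hp
    obtain ⟨-, -, -, hqc⟩ := hV.mem k q hq
    have h1 := card_le_card hsub
    have h2 : k = l + 1 := by omega
    subst h2
    exact hV.cross l p hp q hq (eq_of_subset_of_card_le hsub (by omega))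
  have hadm : ∀ k, k ≤ n → MP_ad4d1c_co_h48.Adm (cat V k) := by
    intro k
    induction k with
    | zero =>
      intro _
      exact ⟨fun p hp => (hV.mem 0 p hp).1, hV.chain 0, hV.pw 0⟩
    | succ k ih =>
      intro hk
      have h2 : MP_ad4d1c_co_h48.Adm (V (k + 1)) :=
        ⟨fun p hp => (hV.mem _ p hp).1, hV.chain _, hV.pw _⟩
      refine (ih (by omega)).append h2 ?_ ?_
      · intro p hp q hq
        rw [cat_getLast (hne k (by omega))] at hp
        rw [hV.last k p hp, hV.head (k + 1) q hq]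
        refine hl k (by omega) ?_
        rintro h0
        simp [h0] at hq
      · intro p hp q hq
        obtain ⟨l, hl', hp'⟩ := cat_mem hp
        exact hno (k + 1) l p hp' q hq (by omega)
  have hsub : ∀ p ∈ cat V n, p.2 ⊆ p.1 ∧ p.1 ⊆ Icc 1 n := by
    intro p hp
    obtain ⟨l, -, hp'⟩ := cat_mem hp
    exact ⟨(hV.mem l p hp').1, (hV.mem l p hp').2.1⟩
  have hA := hadm n le_rfl
  -- the shift
  have hinj : ∀ X Y : Finset ℕ, X ⊆ Icc 1 n → Y ⊆ Icc 1 n →
      X.image (fun x => x - 1) ⊆ Y.image (fun x => x - 1) → X ⊆ Y := by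
    intro X Y hX hY h x hx
    have h1 := h (mem_image_of_mem _ hx)
    obtain ⟨y, hy, hyx⟩ := mem_image.1 h1
    have h2 := mem_Icc.1 (hX hx)
    have h3 := mem_Icc.1 (hY hy)
    have h4 : y = x := by omega
    exact h4 ▸ hy
  refine ⟨(cat V n).map (fun p => (p.1.image (fun x => x - 1), p.2.image (fun x => x - 1))),
    ⟨?_, ?_, ?_⟩, ?_, ?_, ?_⟩
  · intro p hp
    obtain ⟨q, hq, rfl⟩ := List.mem_map.1 hp
    exact image_subset_image (hsub q hq).1
  · rw [List.isChain_map]
    exact hA.chain.imp fun p q hpq => image_subset_image hpq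
  · rw [List.pairwise_map]
    refine List.Pairwise.imp_of_mem ?_ hA.pw
    intro p q hp hq hpq h
    exact hpq (hinj _ _ ((hsub q hq).1.trans (hsub q hq).2) (hsub p hp).2 h)
  · rw [List.length_map, cat_length hV.len n le_rfl]
    congr 1
    rw [Finset.sum_range_succ, Nat.choose_eq_zero_of_lt (by omega : n - 1 < n), add_zero]
    have h1 : range n = range (n - 1 + 1) := by congr 1; omega
    rw [h1]
    exact Nat.sum_range_choose (n - 1)
  · intro p hp
    obtain ⟨q, hq, rfl⟩ := List.mem_map.1 hp
    intro x hx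
    obtain ⟨y, hy, rfl⟩ := mem_image.1 hx
    have h2 := mem_Icc.1 ((hsub q hq).2 hy)
    exact mem_range.2 (by omega)
  · have h0 : (V 0).head? = some (s 0, s 0) := by
      obtain ⟨x, t, hx⟩ := List.exists_cons_of_ne_nil (hne 0 (by omega))
      have hx' : (V 0).head? = some x := by rw [hx]; rfl
      rw [hx', hV.head 0 x hx']
    have h1 : s 0 = ∅ := by
      have h2 : (s 0, s 0) ∈ V 0 := List.mem_of_mem_head? h0
      exact card_eq_zero.1 (hV.mem 0 _ h2).2.2.2
    rw [List.head?_map, cat_head h0, h1]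
    simp

end Pool.Agent.Lib.MP_ad4d1c_co_h48.Ex
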